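import Mathlib
import Pool.Agent.H370R2.Digamma

/-!
# Stirling for the Gamma factor: the real part of the logarithmic derivative on the line `Re s = 2`

The formula `logDeriv_Gammaℝ` is copied from Pool/Agent/H370R2/DirGood.lean.
-/

set_option autoImplicit false

open Complex Filter Topology Set

namespace Pool.Agent.Y974.OJ

open H370.DG

lemma ne_neg_nat_of_im {w : ℂ} (hw : w.im ≠ 0) (m : ℕ) : w ≠ -m := by
  intro h
  rw [h] at hw
  simp at hw

lemma logDeriv_Gammaℝ {z : ℂ} (hz : z.im ≠ 0) :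
    logDeriv Gammaℝ z = -(Real.log Real.pi : ℂ) / 2 + 1 / 2 * logDeriv Gamma (z / 2) := by
  have hz2 : (z / 2).im ≠ 0 := by
    have : (z / 2).im = z.im / 2 := by simp
    rw [this]
    exact div_ne_zero hz two_ne_zero
  have hpi : (Real.pi : ℂ) ≠ 0 := ofReal_ne_zero.mpr Real.pi_ne_zero
  have d1 : HasDerivAt (fun z : ℂ => (Real.pi : ℂ) ^ (-z / 2))
      ((Real.pi : ℂ) ^ (-z / 2) * log (Real.pi : ℂ) * (-1 / 2)) z := by
    have h1 : HasDerivAt (fun z : ℂ => -z / 2) (-1 / 2) z := by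
      simpa using ((hasDerivAt_id z).neg).div_const 2
    exact h1.const_cpow (Or.inl hpi)
  have d2 : HasDerivAt (fun z : ℂ => Gamma (z / 2)) (deriv Gamma (z / 2) * (1 / 2)) z := by
    have h1 : HasDerivAt (fun z : ℂ => z / 2) (1 / 2) z := by
      simpa using (hasDerivAt_id z).div_const 2
    exact HasDerivAt.comp z (differentiableAt_Gamma _ (ne_neg_nat_of_im hz2)).hasDerivAt h1
  have hG : Gammaℝ = fun z : ℂ => (Real.pi : ℂ) ^ (-z / 2) * Gamma (z / 2) := by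
    funext z
    rw [Gammaℝ_def]
  have d3 := d1.mul d2
  have hΓ : Gamma (z / 2) ≠ 0 := Gamma_ne_zero (ne_neg_nat_of_im hz2)
  have hpc : (Real.pi : ℂ) ^ (-z / 2) ≠ 0 := by
    rw [Ne, cpow_eq_zero_iff]
    exact fun h => hpi h.1
  rw [logDeriv_apply, logDeriv_apply, hG]
  erw [d3.deriv]
  rw [← Complex.ofReal_log Real.pi_pos.le]
  field_simp

/-- the error of the trapezoidal rule -/
noncomputable def hh (z : ℂ) : ℂ := log (z + 1) - log z - (1 / z + 1 / (z + 1)) / 2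

lemma log_split {z : ℂ} (hz : 2 ≤ z.re) : log (z + 1) = log z + log (1 + 1 / z) := by
  have hn : 2 ≤ ‖z‖ := hz.trans (re_le_norm z)
  have hz0 : z ≠ 0 := by
    intro h
    rw [h] at hn
    simp at hn
    linarith
  have hw : ‖1 / z‖ ≤ 1 / 2 := by
    rw [norm_div, norm_one]
    exact one_div_le_one_div_of_le (by norm_num) hn
  have hre : 0 < (1 + 1 / z).re := by
    have : -‖1 / z‖ ≤ (1 / z).re := by
      have := abs_re_le_norm (1 / z)
      rw [abs_le] at this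
      exact this.1
    rw [add_re, one_re]
    linarith
  have hmul : z + 1 = z * (1 + 1 / z) := by
    field_simp
  rw [hmul]
  apply log_mul hz0 (by intro h; rw [h] at hre; simp at hre)
  have a1 := abs_arg_lt_pi_div_two_iff.mpr (Or.inl (show 0 < z.re by linarith))
  have a2 := abs_arg_lt_pi_div_two_iff.mpr (Or.inl hre)
  rw [abs_lt] at a1 a2
  constructor <;> linarith [a1.1, a1.2, a2.1, a2.2]

lemma norm_hh {z : ℂ} (hz : 2 ≤ z.re) : ‖hh z‖ ≤ 2 / ‖z‖ ^ 3 := by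
  have hn : 2 ≤ ‖z‖ := hz.trans (re_le_norm z)
  have hz0 : z ≠ 0 := by
    intro h
    rw [h] at hn
    simp at hn
    linarith
  have hz1 : z + 1 ≠ 0 := by
    intro h
    have := congrArg re h
    simp at this
    linarith
  have hw : ‖1 / z‖ ≤ 1 / 2 := by
    rw [norm_div, norm_one]
    exact one_div_le_one_div_of_le (by norm_num) hn
  have hw' : ‖z⁻¹‖ ≤ 1 / 2 := by
    rwa [one_div] at hw
  have h1 := norm_log_sub_logTaylor_le 2 (z := 1 / z) (by linarith)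
  have h2 : logTaylor (2 + 1) (1 / z) = 1 / z - (1 / z) ^ 2 / 2 := by
    simp [logTaylor_succ, logTaylor_zero]
    ring
  have h3 : hh z = (log (1 + 1 / z) - logTaylor (2 + 1) (1 / z)) -
      1 / (2 * z ^ 2 * (z + 1)) := by
    rw [hh, log_split hz, h2]
    field_simp
    ring
  have h4 : (1 - ‖1 / z‖)⁻¹ ≤ 2 := by
    rw [inv_le_comm₀ (by linarith) (by norm_num)]
    linarith
  have h5 : ‖1 / z‖ ^ 3 = 1 / ‖z‖ ^ 3 := by
    rw [norm_div, norm_one, div_pow, one_pow]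
  have h6 : ‖log (1 + 1 / z) - logTaylor (2 + 1) (1 / z)‖ ≤ 1 / ‖z‖ ^ 3 := by
    refine h1.trans ?_
    rw [show 2 + 1 = 3 from rfl, h5]
    have h7 : 0 ≤ 1 / ‖z‖ ^ 3 := by positivity
    have h8 : 1 / ‖z‖ ^ 3 * (1 - ‖1 / z‖)⁻¹ ≤ 1 / ‖z‖ ^ 3 * 2 :=
      mul_le_mul_of_nonneg_left h4 h7
    have h9 : ((2 : ℕ) : ℝ) + 1 = 3 := by norm_num
    rw [h9]
    rw [div_le_iff₀ (by norm_num)]
    linarith
  have h10 : ‖1 / (2 * z ^ 2 * (z + 1))‖ ≤ 1 / ‖z‖ ^ 3 := by
    rw [norm_div, norm_one, norm_mul, norm_mul, norm_pow]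
    have h11 : ‖(2 : ℂ)‖ = 2 := by simp
    rw [h11]
    apply one_div_le_one_div_of_le (by positivity)
    have h12 : ‖z‖ ≤ ‖z + 1‖ := by
      rw [Complex.norm_def, Complex.norm_def]
      apply Real.sqrt_le_sqrt
      rw [normSq_apply, normSq_apply]
      simp only [add_re, one_re, add_im, one_im, add_zero]
      nlinarith
    have h13 : 0 ≤ ‖z‖ ^ 2 := by positivity
    nlinarith [mul_le_mul_of_nonneg_left h12 h13]
  rw [h3]
  refine (norm_sub_le _ _).trans ?_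
  have h14 : 2 / ‖z‖ ^ 3 = 1 / ‖z‖ ^ 3 + 1 / ‖z‖ ^ 3 := by ring
  rw [h14]
  exact add_le_add h6 h10

/-- the telescoping majorant -/
noncomputable def tel (u : ℝ) (n : ℕ) : ℝ := 1 / ((n + 2 + u) * (n + 3 + u))

lemma tel_tendsto (u : ℝ) (hu : 0 ≤ u) : Tendsto (tel u) atTop (𝓝 0) := by
  have h1 : ∀ n : ℕ, 0 ≤ tel u n := fun n => by rw [tel]; positivity
  have h2 : ∀ n : ℕ, tel u n ≤ 1 / ((n : ℝ) + 1) := by
    intro n
    rw [tel]
    apply one_div_le_one_div_of_le (by positivity)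
    have hn : (0 : ℝ) ≤ n := Nat.cast_nonneg n
    nlinarith
  exact squeeze_zero h1 h2 tendsto_one_div_add_atTop_nhds_zero_nat

lemma tel_hasSum (u : ℝ) (hu : 0 ≤ u) :
    HasSum (fun n => tel u n - tel u (n + 1)) (tel u 0) := by
  have h0 : ∀ n, 0 ≤ tel u n - tel u (n + 1) := by
    intro n
    rw [sub_nonneg, tel, tel]
    have hn : (0 : ℝ) ≤ n := Nat.cast_nonneg n
    apply one_div_le_one_div_of_le (by positivity)
    push_cast
    nlinarith
  rw [hasSum_iff_tendsto_nat_of_nonneg h0]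
  have h1 : ∀ n : ℕ, ∑ i ∈ Finset.range n, (tel u i - tel u (i + 1)) = tel u 0 - tel u n := by
    intro n
    exact Finset.sum_range_sub' (tel u) n
  simp only [h1]
  simpa using (tel_tendsto u hu).const_sub (tel u 0)

/-- the points -/
noncomputable def zn (u : ℝ) (n : ℕ) : ℂ := ((n : ℝ) + 3 : ℝ) + (u : ℂ) * I

lemma zn_re (u : ℝ) (n : ℕ) : (zn u n).re = n + 3 := by
  simp [zn]

lemma zn_im (u : ℝ) (n : ℕ) : (zn u n).im = u := by
  simp [zn]

lemma zn_norm (u : ℝ) (hu : 0 < u) (n : ℕ) : ((n + 3 + u) ^ 3) / 3 ≤ ‖zn u n‖ ^ 3 := by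
  have h1 : ‖zn u n‖ ^ 2 = (n + 3) ^ 2 + u ^ 2 := by
    rw [← Complex.normSq_eq_norm_sq, normSq_apply, zn_re, zn_im]
    ring
  have h2 : 0 ≤ ‖zn u n‖ := norm_nonneg _
  have hn : (0 : ℝ) ≤ n := Nat.cast_nonneg n
  -- `‖z‖ ≥ (x + u) / √2 ≥ (x + u) * 7 / 10`
  have h3 : (n + 3 + u) * (7 / 10) ≤ ‖zn u n‖ := by
    apply le_of_sq_le_sq _ h2
    rw [h1]
    nlinarith [sq_nonneg ((n : ℝ) + 3 - u)]
  have h4 : ((n + 3 + u) * (7 / 10)) ^ 3 ≤ ‖zn u n‖ ^ 3 :=
    pow_le_pow_left₀ (by positivity) h3 3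
  have h5 : 0 < (n + 3 + u) ^ 3 := by positivity
  have h6 : ((n + 3 + u) * (7 / 10)) ^ 3 = (n + 3 + u) ^ 3 * (343 / 1000) := by ring
  rw [h6] at h4
  linarith

lemma hh_le (u : ℝ) (hu : 0 < u) (n : ℕ) :
    ‖hh (zn u n)‖ ≤ 3 * (tel u n - tel u (n + 1)) := by
  have h1 := norm_hh (z := zn u n) (by rw [zn_re]; have := Nat.cast_nonneg (α := ℝ) n; linarith)
  have h2 := zn_norm u hu n
  have hn : (0 : ℝ) ≤ n := Nat.cast_nonneg n
  have h3 : 0 < (n + 3 + u) ^ 3 := by positivity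
  refine h1.trans ?_
  have h4 : 2 / ‖zn u n‖ ^ 3 ≤ 2 / ((n + 3 + u) ^ 3 / 3) := by
    apply div_le_div_of_nonneg_left (by norm_num) (by positivity) h2
  refine h4.trans ?_
  have h5 : tel u n - tel u (n + 1) = 2 / ((n + 2 + u) * (n + 3 + u) * (n + 4 + u)) := by
    rw [tel, tel]
    push_cast
    have : (n : ℝ) + 1 + 2 + u = n + 3 + u := by ring
    rw [this]
    have : (n : ℝ) + 1 + 3 + u = n + 4 + u := by ring
    rw [this]
    field_simp
    ring
  rw [h5]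
  rw [div_div_eq_mul_div, mul_div_assoc', div_le_div_iff₀ (by positivity) (by positivity)]
  have h6 : (n + 2 + u) * (n + 3 + u) * (n + 4 + u) ≤ (n + 3 + u) ^ 3 := by nlinarith
  nlinarith

lemma er_eq (u : ℝ) (n : ℕ) : er n (1 + (u : ℂ) * I) =
    hh (zn u n) + (1 / (zn u (n + 1)) - 1 / (zn u n)) / 2 := by
  have h1 : (1 + (u : ℂ) * I) + ((n : ℂ) + 2) = zn u n := by
    rw [zn]
    push_cast
    ring
  have h2 : (1 + (u : ℂ) * I) + ((n : ℂ) + 3) = zn u n + 1 := by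
    rw [← h1]
    ring
  have h3 : zn u (n + 1) = zn u n + 1 := by
    rw [zn, zn]
    push_cast
    ring
  rw [er, h1, h2, h3, hh]
  ring

lemma zn_inv_tendsto (u : ℝ) : Tendsto (fun n => 1 / zn u n) atTop (𝓝 0) := by
  rw [tendsto_zero_iff_norm_tendsto_zero]
  have h1 : ∀ n : ℕ, ‖1 / zn u n‖ ≤ 1 / ((n : ℝ) + 1) := by
    intro n
    have hn : (0 : ℝ) ≤ n := Nat.cast_nonneg n
    rw [norm_div, norm_one]
    apply one_div_le_one_div_of_le (by positivity)
    refine le_trans ?_ (re_le_norm _)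
    rw [zn_re]
    linarith
  exact squeeze_zero (fun n => norm_nonneg _) h1 tendsto_one_div_add_atTop_nhds_zero_nat

lemma tsum_er_eq (u : ℝ) (hu : 0 < u) :
    ‖(∑' n, er n (1 + (u : ℂ) * I)) + 1 / (zn u 0) / 2‖ ≤ 3 * tel u 0 := by
  have hs : 0 < (1 + (u : ℂ) * I).re := by simp
  have h1 := summable_er hs
  have h2 : Summable (fun n => hh (zn u n)) :=
    Summable.of_norm_bounded ((tel_hasSum u hu.le).summable.mul_left 3) (hh_le u hu)
  have h3 := h1.hasSum.tendsto_sum_nat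
  have h4 := h2.hasSum.tendsto_sum_nat
  have h5 : ∀ m : ℕ, ∑ n ∈ Finset.range m, er n (1 + (u : ℂ) * I) =
      (∑ n ∈ Finset.range m, hh (zn u n)) + (1 / zn u m - 1 / zn u 0) / 2 := by
    intro m
    rw [Finset.sum_congr rfl fun n _ => er_eq u n, Finset.sum_add_distrib,
      ← Finset.sum_div, Finset.sum_range_sub (fun n => 1 / zn u n)]
  have h6 : Tendsto (fun m : ℕ => (∑ n ∈ Finset.range m, hh (zn u n)) +
      (1 / zn u m - 1 / zn u 0) / 2) atTop
      (𝓝 ((∑' n, hh (zn u n)) + (0 - 1 / zn u 0) / 2)) :=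
    h4.add (((zn_inv_tendsto u).sub_const _).div_const 2)
  have h7 := tendsto_nhds_unique h3 (h6.congr fun m => (h5 m).symm)
  rw [h7]
  have h8 : (∑' n, hh (zn u n)) + (0 - 1 / zn u 0) / 2 + 1 / zn u 0 / 2 = ∑' n, hh (zn u n) := by
    ring
  rw [h8]
  exact tsum_of_norm_bounded ((tel_hasSum u hu.le).mul_left 3) (hh_le u hu)

/-- the real part of the digamma function on the line `Re s = 1` -/
theorem digamma_re (u : ℝ) (hu : 0 < u) :
    |(logDeriv Gamma (1 + (u : ℂ) * I)).re - Real.log u| ≤ 13 / u ^ 2 := by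
  have hs : 0 < (1 + (u : ℂ) * I).re := by simp
  have h1 := logDeriv_Gamma' hs
  have h2 := (abs_re_le_norm _).trans (tsum_er_eq u hu)
  have hz0 : zn u 0 = 3 + (u : ℂ) * I := by
    rw [zn]
    push_cast
    ring
  rw [h1]
  set A := ∑' n, er n (1 + (u : ℂ) * I) with hA
  have hlog : (log (1 + (u : ℂ) * I + 2)).re = Real.log u + Real.log (1 + 9 / u ^ 2) / 2 := by
    rw [log_re]
    have h3 : ‖1 + (u : ℂ) * I + 2‖ = Real.sqrt (9 + u ^ 2) := by
      rw [Complex.norm_def]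
      congr 1
      rw [normSq_apply]
      simp
      ring
    rw [h3, Real.log_sqrt (by positivity)]
    have h4 : 9 + u ^ 2 = u ^ 2 * (1 + 9 / u ^ 2) := by
      field_simp
      ring
    rw [h4, Real.log_mul (by positivity) (by positivity), Real.log_pow]
    push_cast
    ring
  have h9 : 0 ≤ Real.log (1 + 9 / u ^ 2) := Real.log_nonneg (by
    have : 0 ≤ 9 / u ^ 2 := by positivity
    linarith)
  have h10 : Real.log (1 + 9 / u ^ 2) ≤ 9 / u ^ 2 := by
    have := Real.log_le_sub_one_of_pos (show 0 < 1 + 9 / u ^ 2 by positivity)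
    linarith
  have hr : ∀ c : ℝ, 0 < c → (1 / ((c : ℂ) + (u : ℂ) * I)).re = c / (c ^ 2 + u ^ 2) := by
    intro c hc
    rw [one_div, inv_re, normSq_apply]
    simp
    ring
  have hr1 := hr 1 one_pos
  have hr2 := hr 2 two_pos
  have hr3 := hr 3 three_pos
  have e1 : (1 / (1 + (u : ℂ) * I)).re = 1 / (1 + u ^ 2) := by
    rw [ofReal_one] at hr1
    rw [hr1]
    norm_num
  have e2 : (1 / (1 + (u : ℂ) * I + 1)).re = 2 / (4 + u ^ 2) := by
    have : (1 + (u : ℂ) * I + 1) = ((2 : ℝ) : ℂ) + (u : ℂ) * I := by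
      push_cast
      ring
    rw [this, hr2]
    norm_num
  have e3 : (1 / zn u 0 / 2).re = 3 / (9 + u ^ 2) / 2 := by
    have h11 : (1 / zn u 0 / 2) = ((1 / 2 : ℝ) : ℂ) * (1 / (((3 : ℝ) : ℂ) + (u : ℂ) * I)) := by
      rw [hz0]
      push_cast
      ring
    rw [h11, re_ofReal_mul, hr3]
    ring
  rw [add_re, e3] at h2
  have h12 : 3 * tel u 0 ≤ 3 / u ^ 2 := by
    rw [tel]
    have : 1 / ((((0 : ℕ) : ℝ) + 2 + u) * (((0 : ℕ) : ℝ) + 3 + u)) ≤ 1 / u ^ 2 := by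
      apply one_div_le_one_div_of_le (by positivity)
      push_cast
      nlinarith
    have h13 : 3 / u ^ 2 = 3 * (1 / u ^ 2) := by ring
    rw [h13]
    linarith
  have b1 : 1 / (1 + u ^ 2) ≤ 1 / u ^ 2 :=
    one_div_le_one_div_of_le (by positivity) (by linarith)
  have b2 : 2 / (4 + u ^ 2) ≤ 2 / u ^ 2 :=
    div_le_div_of_nonneg_left (by norm_num) (by positivity) (by linarith)
  have b3 : 3 / (9 + u ^ 2) ≤ 3 / u ^ 2 :=
    div_le_div_of_nonneg_left (by norm_num) (by positivity) (by linarith)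
  have p1 : 0 ≤ 1 / (1 + u ^ 2) := by positivity
  have p2 : 0 ≤ 2 / (4 + u ^ 2) := by positivity
  have p3 : 0 ≤ 3 / (9 + u ^ 2) := by positivity
  have q : 0 < 1 / u ^ 2 := by positivity
  have c1 : 9 / u ^ 2 = 9 * (1 / u ^ 2) := by ring
  have c2 : 2 / u ^ 2 = 2 * (1 / u ^ 2) := by ring
  have c3 : 3 / u ^ 2 = 3 * (1 / u ^ 2) := by ring
  have c4 : 13 / u ^ 2 = 13 * (1 / u ^ 2) := by ring
  rw [add_re, sub_re, sub_re, hlog, e1, e2]
  generalize Real.log (1 + 9 / u ^ 2) = L at h9 h10 ⊢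
  rw [c1] at h10
  rw [c2] at b2
  rw [c3] at b3 h12
  rw [c4]
  rw [abs_le] at h2 ⊢
  constructor
  · linarith [h2.1, h2.2]
  · linarith [h2.1, h2.2]

/-- the two estimates for the Gamma factor -/
theorem ga_core : ∃ C : ℝ, 0 < C ∧ ∀ y : ℝ, 1 ≤ y →
    |(logDeriv Complex.Gammaℝ (((2 : ℝ) : ℂ) + (y : ℂ) * Complex.I)).re -
      Real.log (y / (2 * Real.pi)) / 2| ≤ C / y ^ 2 ∧
    ∀ σ : ℝ, 1 / 2 ≤ σ → σ ≤ 2 →
      |(logDeriv Complex.Gammaℝ ((σ : ℂ) + (y : ℂ) * Complex.I)).im| ≤ C := by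
  obtain ⟨C0, hC0⟩ := H370.digamma_bound
  refine ⟨max 26 C0, lt_of_lt_of_le (by norm_num) (le_max_left _ _), fun y hy => ⟨?_, ?_⟩⟩
  · have hy0 : 0 < y := by linarith
    rw [logDeriv_Gammaℝ (by simp; linarith)]
    have h1 : ((2 : ℝ) : ℂ) + (y : ℂ) * Complex.I = 2 * (1 + ((y / 2 : ℝ) : ℂ) * Complex.I) := by
      push_cast
      ring
    have h2 : (((2 : ℝ) : ℂ) + (y : ℂ) * Complex.I) / 2 =
        1 + ((y / 2 : ℝ) : ℂ) * Complex.I := by
      rw [h1]
      ring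
    rw [h2]
    have h3 := digamma_re (y / 2) (by linarith)
    have h4 : (-(Real.log Real.pi : ℂ) / 2 +
        1 / 2 * logDeriv Gamma (1 + ((y / 2 : ℝ) : ℂ) * Complex.I)).re =
        -Real.log Real.pi / 2 +
          1 / 2 * (logDeriv Gamma (1 + ((y / 2 : ℝ) : ℂ) * Complex.I)).re := by
      have h5 : (-(Real.log Real.pi : ℂ) / 2 +
        1 / 2 * logDeriv Gamma (1 + ((y / 2 : ℝ) : ℂ) * Complex.I)) =
        ((-Real.log Real.pi / 2 : ℝ) : ℂ) +
          ((1 / 2 : ℝ) : ℂ) * logDeriv Gamma (1 + ((y / 2 : ℝ) : ℂ) * Complex.I) := by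
        push_cast
        ring
      rw [h5, add_re, ofReal_re, re_ofReal_mul]
    rw [h4]
    have h6 : Real.log (y / (2 * Real.pi)) = Real.log (y / 2) - Real.log Real.pi := by
      rw [← Real.log_div (by positivity) (by positivity)]
      congr 1
      field_simp
    rw [h6]
    have h7 : -Real.log Real.pi / 2 +
          1 / 2 * (logDeriv Gamma (1 + ((y / 2 : ℝ) : ℂ) * Complex.I)).re -
          (Real.log (y / 2) - Real.log Real.pi) / 2 =
          1 / 2 * ((logDeriv Gamma (1 + ((y / 2 : ℝ) : ℂ) * Complex.I)).re -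
            Real.log (y / 2)) := by ring
    rw [h7, abs_mul]
    have h8 : 13 / (y / 2) ^ 2 = 52 / y ^ 2 := by
      field_simp
      ring
    rw [h8] at h3
    have h9 : (26 : ℝ) / y ^ 2 ≤ max 26 C0 / y ^ 2 := by
      gcongr
      exact le_max_left _ _
    have h10 : |(1 / 2 : ℝ)| = 1 / 2 := abs_of_pos (by norm_num)
    rw [h10]
    have h11 : (26 : ℝ) / y ^ 2 = 1 / 2 * (52 / y ^ 2) := by ring
    refine le_trans ?_ h9
    rw [h11]
    exact mul_le_mul_of_nonneg_left h3 (by norm_num)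
  · intro σ h1 h2
    rw [logDeriv_Gammaℝ (by simp; linarith)]
    have hre : ((((σ : ℂ) + (y : ℂ) * Complex.I)) / 2).re = σ / 2 := by simp
    have him : ((((σ : ℂ) + (y : ℂ) * Complex.I)) / 2).im = y / 2 := by simp
    have h3 := hC0 ((((σ : ℂ) + (y : ℂ) * Complex.I)) / 2) (by rw [hre]; linarith)
      (by rw [hre]; linarith) (by rw [him, abs_of_pos (by linarith)]; linarith)
    have h4 := (abs_im_le_norm _).trans h3
    rw [sub_im, ofReal_im, sub_zero] at h4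
    have h5 : (-(Real.log Real.pi : ℂ) / 2 +
        1 / 2 * logDeriv Gamma ((((σ : ℂ) + (y : ℂ) * Complex.I)) / 2)) =
        ((-Real.log Real.pi / 2 : ℝ) : ℂ) +
          ((1 / 2 : ℝ) : ℂ) * logDeriv Gamma ((((σ : ℂ) + (y : ℂ) * Complex.I)) / 2) := by
        push_cast
        ring
    rw [h5, add_im, ofReal_im, im_ofReal_mul, zero_add, abs_mul]
    have h10 : |(1 / 2 : ℝ)| = 1 / 2 := abs_of_pos (by norm_num)
    rw [h10]
    refine le_trans ?_ (le_max_right _ _)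
    have := abs_nonneg (logDeriv Gamma ((((σ : ℂ) + (y : ℂ) * Complex.I)) / 2)).im
    linarith

end Pool.Agent.Y974.OJ
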