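import Pool.Agent.Y746.OJ.Stm4
import Pool.Agent.Y974.OJ.GA0

/-!
# OJ-GA: Stirling for the Gamma factor
-/

set_option autoImplicit false

namespace Pool.Agent.Y974.OJ

open Pool.Agent.Y746.OJ

theorem t_GA : S_GA := ga_core

end Pool.Agent.Y974.OJ
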